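import Pool.Agent.STR.Stmts

/-!
# Squad STR, module MAT: from a map to a bijection
-/

set_option autoImplicit false

namespace Pool.Agent.STR.H16

open Finset

theorem fl_fl {α : Type} [DecidableEq α] (x : α → Bool) (i : α) : fl (fl x i) i = x := by
  unfold fl
  funext j
  by_cases h : j = i
  · subst h
    simp
  · simp [Function.update_of_ne h]

/-- Changing a coordinate is a permutation of the cube. -/
def flEquiv {α : Type} [DecidableEq α] (i : α) : Equiv.Perm (α → Bool) where
  toFun x := fl x i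
  invFun x := fl x i
  left_inv x := fl_fl x i
  right_inv x := fl_fl x i

theorem sum_fl {α : Type} [Fintype α] [DecidableEq α] (i : α) (d : (α → Bool) → ℝ) :
    ∑ x, d (fl x i) = ∑ x, d x :=
  Equiv.sum_comp (flEquiv i) d

theorem mat (hD : DualStmt) : MatStmt := by
  intro γ δ _ _ _ _ A f D hA hh
  have hcard : Fintype.card (γ → Bool) = Fintype.card A := by
    rw [Fintype.card_coe, hA]
  let e : (γ → Bool) ≃ A := Fintype.equivOfCardEq hcard
  obtain ⟨σ, h, hLip, hs⟩ := hD (γ → Bool) δ f (fun x => (e x).1)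
  refine ⟨σ.trans e, ?_⟩
  have hX : (0 : ℝ) < Fintype.card (γ → Bool) := by
    exact_mod_cast Fintype.card_pos
  set d : (γ → Bool) → ℝ := fun x => (hammingDist (f x) (e (σ x)).1 : ℝ) with hd
  have h1 : ∑ x, d x ≤ Fintype.card (γ → Bool) * D := by
    have h2 := hh h hLip
    have h3 : ∑ x : γ → Bool, h (e x).1 = ∑ x ∈ A, h x := by
      rw [Equiv.sum_comp e (fun a => h a.1)]
      exact Finset.sum_coe_sort A h
    have h4 : (A.card : ℝ) = Fintype.card (γ → Bool) := by rw [hA]
    rw [h4] at h2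
    unfold av at h2
    rw [← sub_div, div_le_iff₀ hX] at h2
    have h5 : ∑ x, d x ≤ ∑ x : γ → Bool, h (e x).1 - ∑ x, h (f x) := hs
    rw [h3] at h5
    linarith
  have h6 : ∀ x : γ → Bool, ∑ i, (hammingDist ((σ.trans e) x).1 ((σ.trans e) (fl x i)).1 : ℝ) ≤
      ∑ i, (hammingDist (f x) (f (fl x i)) : ℝ) + ∑ i, (d x + d (fl x i)) := by
    intro x
    rw [← Finset.sum_add_distrib]
    refine Finset.sum_le_sum fun i _ => ?_
    have t1 := hammingDist_triangle ((σ.trans e) x).1 (f x) ((σ.trans e) (fl x i)).1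
    have t2 := hammingDist_triangle (f x) (f (fl x i)) ((σ.trans e) (fl x i)).1
    have t3 := hammingDist_comm ((σ.trans e) x).1 (f x)
    have t4 : hammingDist ((σ.trans e) x).1 ((σ.trans e) (fl x i)).1 ≤
        hammingDist (f x) (f (fl x i)) + (hammingDist (f x) ((σ.trans e) x).1 +
          hammingDist (f (fl x i)) ((σ.trans e) (fl x i)).1) := by omega
    have t5 : ((hammingDist ((σ.trans e) x).1 ((σ.trans e) (fl x i)).1 : ℕ) : ℝ) ≤
        ((hammingDist (f x) (f (fl x i)) + (hammingDist (f x) ((σ.trans e) x).1 +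
          hammingDist (f (fl x i)) ((σ.trans e) (fl x i)).1) : ℕ) : ℝ) := by exact_mod_cast t4
    rw [Nat.cast_add, Nat.cast_add] at t5
    exact t5
  have h7 : ∑ x : γ → Bool, ∑ i, (d x + d (fl x i)) = 2 * Fintype.card γ * ∑ x, d x := by
    rw [Finset.sum_comm]
    have : ∀ i : γ, ∑ x : γ → Bool, (d x + d (fl x i)) = 2 * ∑ x, d x := by
      intro i
      rw [Finset.sum_add_distrib, sum_fl]
      ring
    rw [Finset.sum_congr rfl fun i _ => this i, Finset.sum_const, Finset.card_univ, nsmul_eq_mul]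
    ring
  unfold av
  have hX' := hX.ne'
  have h8 : (∑ x : γ → Bool, ∑ i, (hammingDist (f x) (f (fl x i)) : ℝ)) / Fintype.card (γ → Bool) +
      2 * Fintype.card γ * D = (∑ x : γ → Bool, ∑ i, (hammingDist (f x) (f (fl x i)) : ℝ) +
        2 * Fintype.card γ * (Fintype.card (γ → Bool) * D)) / Fintype.card (γ → Bool) := by
    field_simp
  rw [h8, div_le_div_iff_of_pos_right hX]
  calc ∑ x : γ → Bool, ∑ i, (hammingDist ((σ.trans e) x).1 ((σ.trans e) (fl x i)).1 : ℝ)
      ≤ ∑ x : γ → Bool, (∑ i, (hammingDist (f x) (f (fl x i)) : ℝ) + ∑ i, (d x + d (fl x i))) :=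
        Finset.sum_le_sum fun x _ => h6 x
    _ = ∑ x : γ → Bool, ∑ i, (hammingDist (f x) (f (fl x i)) : ℝ) +
        2 * Fintype.card γ * ∑ x, d x := by
        rw [Finset.sum_add_distrib, h7]
    _ ≤ _ := by
        have : (0 : ℝ) ≤ 2 * Fintype.card γ := by positivity
        have := mul_le_mul_of_nonneg_left h1 this
        linarith

end Pool.Agent.STR.H16
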